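import Pool.Agent.H23.BG.TargetsL
import Pool.Agent.H29.THC.DFV

set_option autoImplicit false

open NumberField UniqueFactorizationMonoid

namespace Pool.Agent.H49.BG

open Pool.Agent.H23.BG Pool.Agent.H23.LB
open Pool.Agent.H29.TC (dvs)

theorem ac_prime {K : Type} [Field K] [NumberField K] {f : Ideal (𝓞 K)} (hf : f ≠ ⊥)
    {P : Ideal (𝓞 K)} (h : P.IsPrime ∧ f ≤ P) : Prime P := by
  refine Ideal.prime_of_isPrime ?_ h.1
  rintro rfl
  exact hf (le_bot_iff.1 h.2)

theorem ac_two {K : Type} [Field K] [NumberField K] (S : Finset (Ideal (𝓞 K)))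
    (hS : ∀ P ∈ S, Prime P) (h2 : ∀ P ∈ S, (2 : 𝓞 K) ∈ P) :
    S.card ≤ Module.finrank ℚ K := by
  classical
  have h1 : ∏ P ∈ S, P ∣ Ideal.span {((2 : ℕ) : 𝓞 K)} := by
    apply Finset.prod_primes_dvd _ hS
    intro P hP
    rw [Ideal.dvd_span_singleton]
    exact_mod_cast h2 P hP
  have h3 := map_dvd Ideal.absNorm h1
  rw [map_prod, Ideal.absNorm_span_natCast, RingOfIntegers.rank] at h3
  have h4 : 2 ^ S.card ≤ ∏ P ∈ S, Ideal.absNorm P := by
    rw [← Finset.prod_const]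
    refine Finset.prod_le_prod' fun P hP => ?_
    have h4 : Ideal.absNorm P ≠ 0 := fun h0 => (hS P hP).ne_zero (Ideal.absNorm_eq_zero_iff.1 h0)
    have h5 : Ideal.absNorm P ≠ 1 := fun h1 => (hS P hP).not_isUnit
      (Ideal.isUnit_iff.2 (Ideal.absNorm_eq_one_iff.1 h1))
    omega
  have h5 : (2 : ℕ) ^ S.card ≤ 2 ^ Module.finrank ℚ K :=
    h4.trans (Nat.le_of_dvd (by positivity) h3)
  exact (Nat.pow_le_pow_iff_right (by norm_num)).1 h5

theorem ac_card {K : Type} [Field K] [NumberField K] {f : Ideal (𝓞 K)} (hf : f ≠ ⊥)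
    (S : Finset (Ideal (𝓞 K))) (hS : ∀ P ∈ S, Prime P) (hd : ∀ P ∈ S, P ∣ f) :
    2 ^ S.card ≤ (dvs K f).card := by
  classical
  rw [← Finset.card_powerset]
  apply Finset.card_le_card_of_injOn (fun T => ∏ P ∈ T, P)
  · intro T hT
    have hT' : T ⊆ S := Finset.mem_powerset.1 hT
    show (∏ P ∈ T, P) ∈ dvs K f
    rw [Pool.Agent.H29.THC.pf_DF K f hf]
    apply Ideal.le_of_dvd
    exact Finset.prod_primes_dvd _ (fun P hP => hS P (hT' hP)) (fun P hP => hd P (hT' hP))
  · intro T hT U hU h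
    have hT' : T ⊆ S := Finset.mem_powerset.1 hT
    have hU' : U ⊆ S := Finset.mem_powerset.1 hU
    have h' : ∏ P ∈ T, P = ∏ P ∈ U, P := h
    have e1 : normalizedFactors (∏ P ∈ T, P) = T.val := by
      have := normalizedFactors_prod_of_prime (m := T.val) (fun P hP => hS P (hT' hP))
      have h0 : T.val.prod = ∏ P ∈ T, P := Finset.prod_val T
      rwa [h0] at this
    have e2 : normalizedFactors (∏ P ∈ U, P) = U.val := by
      have := normalizedFactors_prod_of_prime (m := U.val) (fun P hP => hS P (hU' hP))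
      have h0 : U.val.prod = ∏ P ∈ U, P := Finset.prod_val U
      rwa [h0] at this
    rw [h'] at e1
    exact Finset.val_injective (e1.symm.trans e2)

theorem pf_L_AC : Pool.Agent.H23.BG.L_AC := by
  classical
  intro n K _ _ hn f S hf hS
  have hp : ∀ P ∈ S, Prime P := fun P hP => ac_prime hf (hS P hP)
  have hc := ac_card hf S hp (fun P hP => Ideal.dvd_iff_le.2 (hS P hP).2)
  have h2 : (S.filter (fun P => (2 : 𝓞 K) ∈ P)).card ≤ n := by
    rw [← hn]
    apply ac_two
    · intro P hP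
      exact hp P (Finset.mem_filter.1 hP).1
    · intro P hP
      exact (Finset.mem_filter.1 hP).2
  have h3 : ∏ P ∈ S, Ac K n P =
      (4 ^ (n + 1)) ^ (S.filter (fun P => (2 : 𝓞 K) ∈ P)).card *
        4 ^ (S.filter (fun P => ¬ (2 : 𝓞 K) ∈ P)).card := by
    rw [← Finset.prod_filter_mul_prod_filter_not S (fun P => (2 : 𝓞 K) ∈ P)]
    congr 1
    · rw [← Finset.prod_const]
      apply Finset.prod_congr rfl
      intro P hP
      unfold Ac
      rw [if_pos (Finset.mem_filter.1 hP).2]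
    · rw [← Finset.prod_const]
      apply Finset.prod_congr rfl
      intro P hP
      unfold Ac
      rw [if_neg (Finset.mem_filter.1 hP).2]
  rw [h3]
  have h4 : ((4 : ℝ) ^ (n + 1)) ^ (S.filter (fun P => (2 : 𝓞 K) ∈ P)).card ≤
      4 ^ (n * (n + 1)) := by
    rw [← pow_mul]
    apply pow_le_pow_right₀ (by norm_num)
    rw [mul_comm n]
    exact Nat.mul_le_mul_left _ h2
  have h5 : ((4 : ℝ)) ^ (S.filter (fun P => ¬ (2 : 𝓞 K) ∈ P)).card ≤
      ((dvs K f).card : ℝ) ^ 2 := by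
    have h6 : ((2 : ℝ)) ^ S.card ≤ ((dvs K f).card : ℝ) := by exact_mod_cast hc
    have h7 : (4 : ℝ) ^ (S.filter (fun P => ¬ (2 : 𝓞 K) ∈ P)).card ≤ 4 ^ S.card :=
      pow_le_pow_right₀ (by norm_num) (Finset.card_filter_le _ _)
    have h8 : (4 : ℝ) ^ S.card = (2 ^ S.card) ^ 2 := by
      rw [← pow_mul, mul_comm, pow_mul]; norm_num
    rw [h8] at h7
    exact h7.trans (pow_le_pow_left₀ (by positivity) h6 2)
  exact mul_le_mul h4 h5 (by positivity) (by positivity)

end Pool.Agent.H49.BG
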