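import Pool.Agent.H23.BG.TargetsL

set_option autoImplicit false

open NumberField UniqueFactorizationMonoid

namespace Pool.Agent.H49.BG

open Pool.Agent.H23.BG Pool.Agent.H23.LB
open Pool.Agent.H29.TC (dvs LC MC)

theorem gl_mul {A N a b c x A' N' a' b' c' x' : ℝ} (hx : 0 ≤ x) (hx' : 0 ≤ x')
    (h : Bd4 A N a b c x) (h' : Bd4 A' N' a' b' c' x') :
    Bd4 (A * A') (N * N') (a * a') (b * b') (c * c') (x * x') := by
  obtain ⟨h1, h2, h3, h4, h5⟩ := h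
  obtain ⟨g1, g2, g3, g4, g5⟩ := h'
  have hb : ∀ {u u' v v' : ℝ}, 0 ≤ u → 0 ≤ u' → u ≤ v → u' ≤ v' → u * u' ≤ v * v' :=
    fun hu hu' h1 h2 => mul_le_mul h1 h2 hu' (hu.trans h1)
  refine ⟨hb hx hx' h1 g1, ?_, ?_, ?_, ?_⟩
  · have := hb (pow_nonneg hx 6) (pow_nonneg hx' 6) h2 g2
    calc (x * x') ^ 6 = x ^ 6 * x' ^ 6 := by ring
      _ ≤ _ := this
      _ = _ := by ring
  · have := hb (pow_nonneg hx 4) (pow_nonneg hx' 4) h3 g3
    calc (x * x') ^ 4 = x ^ 4 * x' ^ 4 := by ring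
      _ ≤ _ := this
      _ = _ := by ring
  · have := hb (pow_nonneg hx 4) (pow_nonneg hx' 4) h4 g4
    calc (x * x') ^ 4 = x ^ 4 * x' ^ 4 := by ring
      _ ≤ _ := this
      _ = _ := by ring
  · have := hb (pow_nonneg hx 4) (pow_nonneg hx' 4) h5 g5
    calc (x * x') ^ 4 = x ^ 4 * x' ^ 4 := by ring
      _ ≤ _ := this
      _ = _ := by ring

theorem gl_mono {A B N a b c x : ℝ} (hA : 0 ≤ A) (hN : 0 ≤ N) (hAB : A ≤ B)
    (h : Bd4 A N a b c x) : Bd4 B N a b c x := by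
  obtain ⟨h1, h2, h3, h4, h5⟩ := h
  have h6 : A ^ 6 ≤ B ^ 6 := pow_le_pow_left₀ hA hAB 6
  have h4' : A ^ 4 ≤ B ^ 4 := pow_le_pow_left₀ hA hAB 4
  refine ⟨h1, h2.trans ?_, h3.trans ?_, h4.trans ?_, h5.trans ?_⟩
  all_goals gcongr

/-- the statement of the induction -/
def GS (K : Type) [Field K] [NumberField K] (n : ℕ) (f : Ideal (𝓞 K)) : Prop :=
  f ≠ ⊥ → ∃ S : Finset (Ideal (𝓞 K)), (∀ P ∈ S, P.IsPrime ∧ f ≤ P) ∧
    ∀ [Fintype (𝓞 K ⧸ f)] (η : 𝓞 K ⧸ f → ℂ), LC f η → ∀ a : Fin 4 → 𝓞 K,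
      Bd4 (∏ P ∈ S, Ac K n P) (Nf K f) (Nf K (gd f a 1 0))
      (Nf K (gd f a 2 0 ⊓ gd f a 2 1)) (Nf K (gd f a 3 0 ⊓ gd f a 3 1 ⊓ gd f a 3 2))
      ‖c4 η (fun i => Ideal.Quotient.mk f (a i))‖

theorem gl_ac {K : Type} [Field K] [NumberField K] (n : ℕ) (P : Ideal (𝓞 K)) :
    0 ≤ Ac K n P := by
  unfold Ac
  split_ifs <;> positivity

theorem gl_nf {K : Type} [Field K] [NumberField K] (P : Ideal (𝓞 K)) :
    0 ≤ Nf K P := by
  unfold Nf
  positivity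

theorem gl_top (K : Type) [Field K] [NumberField K] (n : ℕ) : GS K n ⊤ := by
  intro _
  refine ⟨∅, by simp, ?_⟩
  intro _ η hη a
  have hg : ∀ i j, gd (⊤ : Ideal (𝓞 K)) a i j = ⊤ := fun i j => top_sup_eq _
  have hN : Nf K (⊤ : Ideal (𝓞 K)) = 1 := by
    unfold Nf
    rw [Ideal.absNorm_top]
    simp
  have hs : Subsingleton (𝓞 K ⧸ (⊤ : Ideal (𝓞 K))) := inferInstance
  have he : ∀ x, η x = 1 := fun x => by
    rw [← hη.mc.one]
    exact congrArg η (Subsingleton.elim _ _)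
  have hc : c4 η (fun i => Ideal.Quotient.mk (⊤ : Ideal (𝓞 K)) (a i)) = 1 := by
    unfold c4
    rw [Fintype.sum_subsingleton _ 0]
    simp [he]
  rw [hc, hg, hg, hg, hg, hg, hg]
  simp only [inf_top_eq, hN, Finset.prod_empty, norm_one]
  refine ⟨le_refl _, ?_, ?_, ?_, ?_⟩ <;> norm_num

theorem gl_cop {K : Type} [Field K] [NumberField K] {f g : Ideal (𝓞 K)} (h : IsRelPrime f g) :
    f ⊔ g = ⊤ := by
  rw [← Ideal.isUnit_iff]
  exact h (Ideal.dvd_iff_le.2 le_sup_left) (Ideal.dvd_iff_le.2 le_sup_right)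

theorem gl_prod (hCR : L_CR) (hNM : L_NM) (K : Type) [Field K] [NumberField K] (n : ℕ)
    {f g : Ideal (𝓞 K)} (hfg : f ⊔ g = ⊤) (h1 : GS K n f) (h2 : GS K n g) : GS K n (f * g) := by
  classical
  intro hne
  have hf : f ≠ ⊥ := by rintro rfl; simp at hne
  have hg : g ≠ ⊥ := by rintro rfl; simp at hne
  obtain ⟨S, hS, HS⟩ := h1 hf
  obtain ⟨T, hT, HT⟩ := h2 hg
  refine ⟨S ∪ T, ?_, ?_⟩
  · intro P hP
    rcases Finset.mem_union.1 hP with h | h
    · exact ⟨(hS P h).1, Ideal.mul_le_left.trans (hS P h).2⟩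
    · exact ⟨(hT P h).1, Ideal.mul_le_right.trans (hT P h).2⟩
  · intro _ η hη a
    have : Fintype (𝓞 K ⧸ f) := @Fintype.ofFinite _ (Ideal.finiteQuotientOfFreeOfNeBot f hf)
    have : Fintype (𝓞 K ⧸ g) := @Fintype.ofFinite _ (Ideal.finiteQuotientOfFreeOfNeBot g hg)
    obtain ⟨η₁, η₂, l1, l2, hc⟩ := hCR K f g hf hg hfg η hη
    obtain ⟨n1, n2, n3⟩ := hNM K f g hf hg hfg a
    have hd : Disjoint S T := by
      rw [Finset.disjoint_left]
      intro P h3 h4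
      have h5 : f ⊔ g ≤ P := sup_le (hS P h3).2 (hT P h4).2
      rw [hfg, top_le_iff] at h5
      exact (hS P h3).1.ne_top h5
    have hN : Nf K (f * g) = Nf K f * Nf K g := by
      unfold Nf
      rw [map_mul]
      push_cast
      rfl
    rw [Finset.prod_union hd, hc a, norm_mul, n1, n2, n3, hN]
    exact gl_mul (norm_nonneg _) (norm_nonneg _) (HS η₁ l1 a) (HT η₂ l2 a)

theorem gl_pow (hL1 : L_L1) (hL2 : L_L2) (K : Type) [Field K] [NumberField K] (n : ℕ)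
    (hn : Module.finrank ℚ K = n) {P : Ideal (𝓞 K)} (i : ℕ) (hP : Prime P) : GS K n (P ^ i) := by
  have hPp : P.IsPrime := Ideal.isPrime_of_prime hP
  have hPb : P ≠ ⊥ := hP.ne_zero
  rcases Nat.lt_or_ge i 1 with h0 | h1
  · have : i = 0 := by omega
    subst this
    rw [pow_zero, Ideal.one_eq_top]
    exact gl_top K n
  · intro _
    refine ⟨{P}, ?_, ?_⟩
    · intro Q hQ
      rw [Finset.mem_singleton] at hQ
      subst hQ
      exact ⟨hPp, Ideal.pow_le_self (by omega)⟩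
    · intro _ η hη a
      rw [Finset.prod_singleton]
      rcases Nat.lt_or_ge i 2 with h2 | h2
      · have : i = 1 := by omega
        subst this
        exact hL1 n K hn P hPp hPb η hη a
      · exact hL2 n K hn P hPp hPb i h2 η hη a

theorem gl_all (hL1 : L_L1) (hL2 : L_L2) (hCR : L_CR) (hNM : L_NM) (K : Type) [Field K]
    [NumberField K] (n : ℕ) (hn : Module.finrank ℚ K = n) (f : Ideal (𝓞 K)) : GS K n f := by
  refine induction_on_coprime f ?_ ?_ ?_ ?_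
  · intro h
    exact absurd rfl h
  · intro x hx
    rw [Ideal.isUnit_iff.1 hx]
    exact gl_top K n
  · intro p i hp
    exact gl_pow hL1 hL2 K n hn i hp
  · intro x y hxy h1 h2
    exact gl_prod hCR hNM K n (gl_cop hxy) h1 h2

theorem pf_L_GL (hL1 : L_L1) (hL2 : L_L2) (hCR : L_CR) (hNM : L_NM) (hAC : L_AC) :
    Pool.Agent.H23.BG.L_GL := by
  intro n K _ _ hn f hf _ η hη a
  obtain ⟨S, hS, HS⟩ := gl_all hL1 hL2 hCR hNM K n hn f hf
  exact gl_mono (Finset.prod_nonneg fun P _ => gl_ac n P) (gl_nf f) (hAC n K hn f S hf hS)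
    (HS η hη a)

end Pool.Agent.H49.BG
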